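import Pool.Agent.MBX.Stmts

/-!
# MBX squad, row SDY: differentiation of wave functions in a field coordinate
-/

set_option autoImplicit false

open MeasureTheory Complex ProbabilityTheory

noncomputable section

namespace Pool.Agent.MBX.H10

open Pool.Agent.MBX Pool.Agent.Helper49_Pauli

variable {ι : Type} [Fintype ι] [DecidableEq ι]

/-- the coordinate functions along a coordinate line -/
theorem coordDeriv (y : ι → ℝ) (i j : ι) :
    HasDerivAt (fun t : ℝ => ((Function.update y i t j : ℝ) : ℂ))
      (if j = i then (1 : ℂ) else 0) (y i) := by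
  by_cases h : j = i
  · subst h
    rw [if_pos rfl]
    have h1 : (fun t : ℝ => ((Function.update y j t j : ℝ) : ℂ)) = fun t : ℝ => (t : ℂ) := by
      funext t
      rw [Function.update_self]
    rw [h1]
    exact Complex.ofRealCLM.hasDerivAt
  · rw [if_neg h]
    have h1 : (fun t : ℝ => ((Function.update y i t j : ℝ) : ℂ)) = fun _ : ℝ => ((y j : ℝ) : ℂ) := by
      funext t
      rw [Function.update_of_ne h]
    rw [h1]
    exact hasDerivAt_const _ _

/-- polynomials along a coordinate line -/
theorem polyDeriv (i : ι) (P : MvPolynomial ι ℂ) (y : ι → ℝ) :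
    HasDerivAt (fun t : ℝ => MvPolynomial.eval
        (fun j => ((Function.update y i t j : ℝ) : ℂ)) P)
      (MvPolynomial.eval (fun j => ((y j : ℝ) : ℂ)) (MvPolynomial.pderiv i P)) (y i) := by
  induction P using MvPolynomial.induction_on with
  | C c =>
    simp only [MvPolynomial.eval_C, MvPolynomial.pderiv_C, map_zero]
    exact hasDerivAt_const _ _
  | add p q hp hq =>
    simp only [map_add]
    exact hp.add hq
  | mul_X p j hp =>
    have h1 := hp.mul (coordDeriv y i j)
    have e1 : (fun t : ℝ => MvPolynomial.eval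
        (fun j => ((Function.update y i t j : ℝ) : ℂ)) (p * MvPolynomial.X j)) =
        (fun t : ℝ => MvPolynomial.eval (fun j => ((Function.update y i t j : ℝ) : ℂ)) p) *
          fun t : ℝ => ((Function.update y i t j : ℝ) : ℂ) := by
      funext t
      rw [Pi.mul_apply, map_mul, MvPolynomial.eval_X]
    rw [e1]
    refine h1.congr_deriv ?_
    rw [Derivation.leibniz, map_add, smul_eq_mul, smul_eq_mul, map_mul, map_mul,
      MvPolynomial.eval_X, MvPolynomial.pderiv_X, Function.update_eq_self]
    by_cases h : j = i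
    · subst h
      rw [if_pos rfl, Pi.single_eq_same, map_one]
      ring
    · rw [if_neg h, Pi.single_eq_of_ne h, map_zero]
      ring

theorem genMem (P : MvPolynomial ι ℂ) (f : X3 → ℂ) (hf : CS f) : Gen P f ∈ SS ι :=
  Submodule.subset_span ⟨P, f, hf, rfl⟩

theorem exDeriv (i : ι) (q : (ι → ℝ) → X3 → ℂ) (hq : q ∈ SS ι) :
    ∃ q' ∈ SS ι, ∀ y x, HasDerivAt (fun t : ℝ => q (Function.update y i t) x) (q' y x) (y i) := by
  unfold SS at hq
  induction hq using Submodule.span_induction with
  | mem h hh =>
    obtain ⟨P, f, hf, rfl⟩ := hh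
    refine ⟨Gen (MvPolynomial.pderiv i P) f, genMem _ f hf, fun y x => ?_⟩
    exact (polyDeriv i P y).mul_const (f x)
  | zero => exact ⟨0, Submodule.zero_mem _, fun y x => hasDerivAt_const _ _⟩
  | add a b _ _ ha hb =>
    obtain ⟨a', ha', hda⟩ := ha
    obtain ⟨b', hb', hdb⟩ := hb
    exact ⟨a' + b', Submodule.add_mem _ ha' hb', fun y x => (hda y x).add (hdb y x)⟩
  | smul c a _ ha =>
    obtain ⟨a', ha', hda⟩ := ha
    exact ⟨c • a', Submodule.smul_mem _ c ha', fun y x => (hda y x).const_mul c⟩

theorem sdy : SdyStmt := by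
  intro ι _ _ q hq i
  obtain ⟨q', hq', hd⟩ := exDeriv i q hq
  have he : dY i q = q' := by
    funext y x
    exact (hd y x).deriv
  rw [he]
  exact ⟨hq', hd⟩

end Pool.Agent.MBX.H10
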